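import Pool.Agent.Helper23.MV.StP

/-!
# Project MV, module EXG (helper34)
-/

set_option autoImplicit false

namespace Pool.Agent.Helper34.MV

open Finset ArithmeticFunction
open Pool.Agent.Helper2.MR (ch)
open Pool.Agent.Helper15.AB (IsW)
open Pool.Agent.Helper23.GK (GA)
open Pool.Agent.Helper23.MV

/-- `w'' - 2w' + w` -/
noncomputable def wt2 (w : ℝ → ℝ) (u : ℝ) : ℝ := deriv (deriv w) u - 2 * deriv w u + w u

theorem wt2_cont (w : ℝ → ℝ) (hw : IsW w) : Continuous (wt2 w) := by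
  have h4 : ContDiff ℝ 4 w := hw.smooth
  have h3 : ContDiff ℝ 3 (deriv w) := by
    have : ContDiff ℝ (3 + 1) w := by
      have e : (3 + 1 : WithTop ℕ∞) = 4 := by norm_num
      rw [e]; exact h4
    exact (contDiff_succ_iff_deriv.mp this).2.2
  have c1 : Continuous (deriv w) := h3.continuous
  have c2 : Continuous (deriv (deriv w)) := h3.continuous_deriv (by norm_num)
  exact (c2.sub (continuous_const.mul c1)).add h4.continuous

/-- the point `X e^u` -/
noncomputable def xx (X : ℕ) (u : ℝ) : ℝ := X * Real.exp u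

theorem xx_pos {X : ℕ} (hX : 1 ≤ X) (u : ℝ) : 0 < xx X u :=
  mul_pos (by exact_mod_cast hX) (Real.exp_pos u)

theorem xx_log {X : ℕ} (hX : 1 ≤ X) (u : ℝ) : Real.log (xx X u) = Real.log X + u := by
  have : (0 : ℝ) < X := by exact_mod_cast hX
  rw [xx, Real.log_mul this.ne' (Real.exp_pos u).ne', Real.log_exp]

theorem xx_cpow {X : ℕ} (hX : 1 ≤ X) (u : ℝ) (a : ℂ) :
    ((xx X u : ℝ) : ℂ) ^ a / ((xx X u : ℝ) : ℂ) = (X : ℂ) ^ (a - 1) * Complex.exp ((a - 1) * u) := by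
  have h0 : (xx X u : ℂ) ≠ 0 := by exact_mod_cast (xx_pos hX u).ne'
  have hX0 : (X : ℂ) ≠ 0 := by
    have : X ≠ 0 := by omega
    exact_mod_cast this
  have h1 : ((xx X u : ℝ) : ℂ) ^ a / ((xx X u : ℝ) : ℂ) = ((xx X u : ℝ) : ℂ) ^ (a - 1) := by
    rw [Complex.cpow_sub _ _ h0, Complex.cpow_one]
  rw [h1, Complex.cpow_def_of_ne_zero h0, Complex.cpow_def_of_ne_zero hX0, ← Complex.exp_add,
    ← Complex.ofReal_log (xx_pos hX u).le, xx_log hX, ← Complex.natCast_log]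
  congr 1
  push_cast
  ring

/-- one term -/
theorem term_int (hW : StWhb) (w : ℝ → ℝ) (hw : IsW w) {X : ℕ} (hX : 1 ≤ X) (a : ℂ) (ha : a ≠ 0) :
    (Continuous fun u : ℝ => ((wt2 w u : ℝ) : ℂ) *
      (((xx X u : ℝ) : ℂ) ^ a / a ^ 2 / ((xx X u : ℝ) : ℂ))) ∧
    ∫ u in (0 : ℝ)..1, ((wt2 w u : ℝ) : ℂ) * (((xx X u : ℝ) : ℂ) ^ a / a ^ 2 / ((xx X u : ℝ) : ℂ)) =
      (X : ℂ) ^ (a - 1) * wh w (a - 1) := by
  have he : (fun u : ℝ => ((wt2 w u : ℝ) : ℂ) * (((xx X u : ℝ) : ℂ) ^ a / a ^ 2 / ((xx X u : ℝ) : ℂ))) =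
      fun u : ℝ => (X : ℂ) ^ (a - 1) / a ^ 2 * (((wt2 w u : ℝ) : ℂ) * Complex.exp ((a - 1) * u)) := by
    funext u
    have := xx_cpow hX u a
    rw [div_right_comm, this]
    ring
  constructor
  · rw [he]
    have := wt2_cont w hw
    fun_prop
  · rw [he, intervalIntegral.integral_const_mul]
    obtain ⟨C, -, -, h2, -⟩ := hW w hw
    have h3 := h2 (a - 1)
    have h4 : ∫ v in (0 : ℝ)..1, ((wt2 w v : ℝ) : ℂ) * Complex.exp ((a - 1) * v) = (a - 1 + 1) ^ 2 * wh w (a - 1) := h3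
    rw [h4]
    field_simp
    ring

theorem Ps_eq {X : ℕ} (hX : 1 ≤ X) (c : PCh) (t : ℝ) (u : ℝ) (hu : u ≤ 1) :
    Ps c t (xx X u) = ∑ n ∈ Ioc 0 (3 * X), ((Λ n : ℝ) : ℂ) * c.ev n * ch t n *
      ((max 0 (Real.log X - Real.log n + u) : ℝ) : ℂ) := by
  have hXr : (0 : ℝ) < X := by exact_mod_cast hX
  have hx := xx_pos hX u
  have h3 : xx X u ≤ 3 * X := by
    have : Real.exp u ≤ 3 := by
      have h1 : Real.exp u ≤ Real.exp 1 := Real.exp_le_exp.mpr hu
      have h2 := Real.exp_one_lt_d9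
      linarith
    unfold xx
    nlinarith
  have hsub : Ioc 0 ⌊xx X u⌋₊ ⊆ Ioc 0 (3 * X) := by
    intro n hn
    rw [mem_Ioc] at *
    refine ⟨hn.1, hn.2.trans ?_⟩
    apply Nat.floor_le_of_le
    push_cast
    exact h3
  unfold Ps
  rw [← sum_subset hsub]
  · refine sum_congr rfl (fun n hn => ?_)
    rw [mem_Ioc] at hn
    have hn0 : (0 : ℝ) < n := by exact_mod_cast hn.1
    have hnx : (n : ℝ) ≤ xx X u := (Nat.le_floor_iff hx.le).mp hn.2
    have h4 : Real.log (xx X u / n) = Real.log X - Real.log n + u := by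
      rw [Real.log_div hx.ne' hn0.ne', xx_log hX]; ring
    rw [h4, max_eq_right]
    rw [← h4]
    exact Real.log_nonneg (by rw [le_div_iff₀ hn0]; linarith)
  · intro n hn hn'
    rw [mem_Ioc] at hn hn'
    have hn0 : (0 : ℝ) < n := by exact_mod_cast hn.1
    have hnx : xx X u < n := by
      by_contra hcon
      exact hn' ⟨hn.1, (Nat.le_floor_iff hx.le).mpr (not_lt.mp hcon)⟩
    have h4 : Real.log (xx X u / n) = Real.log X - Real.log n + u := by
      rw [Real.log_div hx.ne' hn0.ne', xx_log hX]; ring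
    rw [max_eq_left]
    · simp
    · rw [← h4]
      exact Real.log_nonpos (by positivity) (by rw [div_le_one hn0]; exact hnx.le)

theorem Ps_contOn {X : ℕ} (hX : 1 ≤ X) (c : PCh) (t : ℝ) :
    ContinuousOn (fun u => Ps c t (xx X u)) (Set.uIcc 0 1) := by
  have h : Continuous (fun u : ℝ => ∑ n ∈ Ioc 0 (3 * X), ((Λ n : ℝ) : ℂ) * c.ev n * ch t n *
      ((max 0 (Real.log X - Real.log n + u) : ℝ) : ℂ)) := by fun_prop
  refine h.continuousOn.congr (fun u hu => ?_)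
  rw [Set.uIcc_of_le zero_le_one] at hu
  exact Ps_eq hX c t u hu.2

/-- the main part of EXG. -/
theorem exg_Rz (hF : StFin) (hW : StWhb) (hG : StG0) (w : ℝ → ℝ) (hw : IsW w) {X : ℕ} (hX : 3 ≤ X)
    (c : PCh) (t η E : ℝ) (hη : η ≤ 1 / 100) (hE : 0 ≤ E)
    (hP : ∀ x : ℝ, √(X : ℝ) ≤ x → x ≤ (X : ℝ) ^ 2 →
      ‖Ps c t x - (if c.χ = 1 then (x : ℂ) ^ (1 - t * Complex.I) / (1 - t * Complex.I) ^ 2 else 0) +
        ∑ ρ ∈ Rz c η X t, (mz c ρ : ℂ) * (x : ℂ) ^ (ρ - t * Complex.I) / (ρ - t * Complex.I) ^ 2‖ ≤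
      x * E) (B : ℝ) (hB : ∀ u ∈ Set.Icc (0 : ℝ) 1, |wt2 w u| ≤ B) :
    ‖GA w c.χ X t - (if c.χ = 1 then (X : ℂ) ^ (-(t * Complex.I)) * wh w (-(t * Complex.I)) else 0) +
      ∑ ρ ∈ Rz c η X t, (mz c ρ : ℂ) * (X : ℂ) ^ (ρ - 1 - t * Complex.I) *
        wh w (ρ - 1 - t * Complex.I)‖ ≤ B * E := by
  classical
  have hX1 : 1 ≤ X := by omega
  have hXr : (3 : ℝ) ≤ X := by exact_mod_cast hX
  have hone : (1 - (t : ℂ) * Complex.I) ≠ 0 := by
    intro h
    have := congrArg Complex.re h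
    simp at this
  have hrho : ∀ ρ ∈ Rz c η X t, ρ - (t : ℂ) * Complex.I ≠ 0 := by
    intro ρ hρ h
    rw [Rz, mem_filter, hF.2.1 c (2 * η) X _ (by linarith)] at hρ
    have := congrArg Complex.re h
    simp at this
    have := hρ.1.2.1
    linarith
  -- the three integrands
  let P : ℝ → ℂ := fun u => ((wt2 w u : ℝ) : ℂ) * Ps c t (xx X u) / ((xx X u : ℝ) : ℂ)
  let Q : ℝ → ℂ := fun u => if c.χ = 1 then ((wt2 w u : ℝ) : ℂ) *
    (((xx X u : ℝ) : ℂ) ^ (1 - t * Complex.I) / (1 - t * Complex.I) ^ 2 / ((xx X u : ℝ) : ℂ)) else 0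
  let R : ℝ → ℂ := fun u => ∑ ρ ∈ Rz c η X t, (mz c ρ : ℂ) * (((wt2 w u : ℝ) : ℂ) *
    (((xx X u : ℝ) : ℂ) ^ (ρ - t * Complex.I) / (ρ - t * Complex.I) ^ 2 / ((xx X u : ℝ) : ℂ)))
  have hPint : ∫ u in (0 : ℝ)..1, P u = GA w c.χ X t := (hG w hw c X t hX1).symm
  have hQint : ∫ u in (0 : ℝ)..1, Q u =
      (if c.χ = 1 then (X : ℂ) ^ (-(t * Complex.I)) * wh w (-(t * Complex.I)) else 0) := by
    simp only [Q]
    split_ifs
    · rw [(term_int hW w hw hX1 _ hone).2]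
      have : 1 - (t : ℂ) * Complex.I - 1 = -(t * Complex.I) := by ring
      rw [this]
    · simp
  have hQc : Continuous Q := by
    simp only [Q]
    split_ifs
    · exact (term_int hW w hw hX1 _ hone).1
    · exact continuous_const
  have hRc : Continuous R := by
    refine continuous_finsetSum _ (fun ρ hρ => ?_)
    exact continuous_const.mul (term_int hW w hw hX1 _ (hrho ρ hρ)).1
  have hRint : ∫ u in (0 : ℝ)..1, R u = ∑ ρ ∈ Rz c η X t, (mz c ρ : ℂ) *
      (X : ℂ) ^ (ρ - 1 - t * Complex.I) * wh w (ρ - 1 - t * Complex.I) := by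
    simp only [R]
    rw [intervalIntegral.integral_finsetSum]
    · refine sum_congr rfl (fun ρ hρ => ?_)
      rw [intervalIntegral.integral_const_mul, (term_int hW w hw hX1 _ (hrho ρ hρ)).2]
      have : ρ - (t : ℂ) * Complex.I - 1 = ρ - 1 - t * Complex.I := by ring
      rw [this]
      ring
    · intro ρ hρ
      exact (continuous_const.mul (term_int hW w hw hX1 _ (hrho ρ hρ)).1).intervalIntegrable _ _
  have hPi : IntervalIntegrable P MeasureTheory.volume 0 1 := by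
    apply ContinuousOn.intervalIntegrable
    have h1 : ContinuousOn (fun u : ℝ => ((wt2 w u : ℝ) : ℂ)) (Set.uIcc 0 1) :=
      (Complex.continuous_ofReal.comp (wt2_cont w hw)).continuousOn
    have h2 : ContinuousOn (fun u : ℝ => ((xx X u : ℝ) : ℂ)) (Set.uIcc 0 1) := by
      have : Continuous (fun u : ℝ => ((xx X u : ℝ) : ℂ)) := by unfold xx; fun_prop
      exact this.continuousOn
    refine (h1.mul (Ps_contOn hX1 c t)).div h2 (fun u _ => ?_)
    exact_mod_cast (xx_pos hX1 u).ne'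
  have hsum : GA w c.χ X t - (if c.χ = 1 then (X : ℂ) ^ (-(t * Complex.I)) * wh w (-(t * Complex.I)) else 0) +
      ∑ ρ ∈ Rz c η X t, (mz c ρ : ℂ) * (X : ℂ) ^ (ρ - 1 - t * Complex.I) *
        wh w (ρ - 1 - t * Complex.I) = ∫ u in (0 : ℝ)..1, (P u - Q u + R u) := by
    rw [intervalIntegral.integral_add (hPi.sub (hQc.intervalIntegrable _ _)) (hRc.intervalIntegrable _ _),
      intervalIntegral.integral_sub hPi (hQc.intervalIntegrable _ _), hPint, hQint, hRint]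
  rw [hsum]
  have hbd : ∀ u ∈ Set.uIoc (0 : ℝ) 1, ‖P u - Q u + R u‖ ≤ B * E := by
    intro u hu
    rw [Set.uIoc_of_le zero_le_one] at hu
    have hxp := xx_pos hX1 u
    have hx1 : √(X : ℝ) ≤ xx X u := by
      have h1 : √(X : ℝ) ≤ X := by
        rw [Real.sqrt_le_left (by linarith)]
        nlinarith
      have h2 : (1 : ℝ) ≤ Real.exp u := Real.one_le_exp hu.1.le
      unfold xx
      nlinarith
    have hx2 : xx X u ≤ (X : ℝ) ^ 2 := by
      have : Real.exp u ≤ 3 := by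
        have h1 : Real.exp u ≤ Real.exp 1 := Real.exp_le_exp.mpr hu.2
        have h2 := Real.exp_one_lt_d9
        linarith
      unfold xx
      nlinarith
    have h := hP (xx X u) hx1 hx2
    have heq : P u - Q u + R u = ((wt2 w u : ℝ) : ℂ) / ((xx X u : ℝ) : ℂ) *
        (Ps c t (xx X u) - (if c.χ = 1 then ((xx X u : ℝ) : ℂ) ^ (1 - t * Complex.I) /
          (1 - t * Complex.I) ^ 2 else 0) +
        ∑ ρ ∈ Rz c η X t, (mz c ρ : ℂ) * ((xx X u : ℝ) : ℂ) ^ (ρ - t * Complex.I) /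
          (ρ - t * Complex.I) ^ 2) := by
      have hR : R u = ((wt2 w u : ℝ) : ℂ) / ((xx X u : ℝ) : ℂ) *
          ∑ ρ ∈ Rz c η X t, (mz c ρ : ℂ) * ((xx X u : ℝ) : ℂ) ^ (ρ - t * Complex.I) /
            (ρ - t * Complex.I) ^ 2 := by
        rw [mul_sum]
        refine sum_congr rfl (fun ρ _ => ?_)
        ring
      have hQ : Q u = ((wt2 w u : ℝ) : ℂ) / ((xx X u : ℝ) : ℂ) *
          (if c.χ = 1 then ((xx X u : ℝ) : ℂ) ^ (1 - t * Complex.I) / (1 - t * Complex.I) ^ 2 else 0) := by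
        simp only [Q]
        split_ifs
        · ring
        · ring
      rw [hR, hQ]
      simp only [P]
      ring
    rw [heq, norm_mul, norm_div, Complex.norm_real, Complex.norm_real, Real.norm_eq_abs,
      Real.norm_eq_abs, abs_of_pos hxp]
    have hBu := hB u ⟨hu.1.le, hu.2⟩
    calc |wt2 w u| / xx X u * _ ≤ B / xx X u * (xx X u * E) := by
          refine mul_le_mul (by gcongr) h (norm_nonneg _) ?_
          exact div_nonneg ((abs_nonneg _).trans hBu) hxp.le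
      _ = B * E := by field_simp
  have := intervalIntegral.norm_integral_le_of_norm_le_const hbd
  simpa using this

theorem hExg (hF : StFin) (hN : StNum) (hP : StPs1) (hW : StWhb) (hG : StG0) : StExg := by
  classical
  intro w hw
  obtain ⟨C, hC1, hC, -, -⟩ := hW w hw
  obtain ⟨η₀, hη₀, hη₀1, hN'⟩ := hN
  obtain ⟨η₁, hη₁, hη₁1, hP'⟩ := hP
  obtain ⟨B, hB⟩ : ∃ B : ℝ, ∀ u ∈ Set.Icc (0 : ℝ) 1, |wt2 w u| ≤ B :=
    (isCompact_Icc.exists_bound_of_continuousOn (wt2_cont w hw).continuousOn)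
  have hB0 : 0 ≤ B := (abs_nonneg _).trans (hB 0 (by simp))
  refine ⟨min η₀ η₁, lt_min hη₀ hη₁, (min_le_left _ _).trans hη₀1, fun η hη hη' => ?_⟩
  have hηa : η ≤ η₀ := hη'.trans (min_le_left _ _)
  have hηb : η ≤ η₁ := hη'.trans (min_le_right _ _)
  have hη100 : η ≤ 1 / 100 := hηa.trans hη₀1
  obtain ⟨X0, hX0, hN2⟩ := hN' η hη hηa
  obtain ⟨X1, hX1, hP2⟩ := hP' η hη hηb
  have hev : ∀ᶠ X : ℝ in Filter.atTop, B * X ^ (-(13 * η / 50)) + C * X ^ (-(29 * η / 50)) ≤ X ^ (-(η / 4)) := by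
    have ht : Filter.Tendsto (fun X : ℝ => B * X ^ (-(η / 100)) + C * X ^ (-(33 * η / 100))) Filter.atTop
        (nhds (B * 0 + C * 0)) := by
      refine Filter.Tendsto.add ?_ ?_
      · exact (tendsto_rpow_neg_atTop (by linarith)).const_mul _
      · exact (tendsto_rpow_neg_atTop (by linarith)).const_mul _
    rw [mul_zero, mul_zero, add_zero] at ht
    have h5 := ht.eventually (gt_mem_nhds (show (0 : ℝ) < 1 by norm_num))
    filter_upwards [h5, Filter.eventually_gt_atTop (0 : ℝ)] with X hX hXp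
    have e1 : X ^ (-(13 * η / 50)) = X ^ (-(η / 4)) * X ^ (-(η / 100)) := by
      rw [← Real.rpow_add hXp]; congr 1; ring
    have e2 : X ^ (-(29 * η / 50)) = X ^ (-(η / 4)) * X ^ (-(33 * η / 100)) := by
      rw [← Real.rpow_add hXp]; congr 1; ring
    rw [e1, e2]
    have hp : 0 < X ^ (-(η / 4)) := Real.rpow_pos_of_pos hXp _
    nlinarith
  obtain ⟨X2, hX2⟩ := Filter.eventually_atTop.mp hev
  refine ⟨max 3 (max ⌈X0⌉₊ (max ⌈X1⌉₊ ⌈X2⌉₊)), by omega, ?_⟩
  intro X c t hX hc ht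
  have hX3 : 3 ≤ X := le_trans (le_max_left _ _) hX
  have hXX0 : X0 ≤ (X : ℝ) := by
    have : ⌈X0⌉₊ ≤ X := le_trans (le_trans (le_max_left _ _) (le_max_right _ _)) hX
    exact (Nat.le_ceil _).trans (by exact_mod_cast this)
  have hXX1 : X1 ≤ (X : ℝ) := by
    have : ⌈X1⌉₊ ≤ X := le_trans (le_trans (le_trans (le_max_left _ _) (le_max_right _ _)) (le_max_right _ _)) hX
    exact (Nat.le_ceil _).trans (by exact_mod_cast this)
  have hXX2 : X2 ≤ (X : ℝ) := by
    have : ⌈X2⌉₊ ≤ X := le_trans (le_trans (le_trans (le_max_right _ _) (le_max_right _ _)) (le_max_right _ _)) hX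
    exact (Nat.le_ceil _).trans (by exact_mod_cast this)
  have hXr : (3 : ℝ) ≤ X := by exact_mod_cast hX3
  have hXp : (0 : ℝ) < X := by linarith
  have hE : 0 ≤ (X : ℝ) ^ (-(13 * η / 50)) := (Real.rpow_pos_of_pos hXp _).le
  have h1 := exg_Rz hF hW hG w hw hX3 c t η ((X : ℝ) ^ (-(13 * η / 50))) hη100 hE
    (fun x hx hx2 => hP2 X c t x hXX1 hc ht hx hx2) B hB
  -- the remaining zeros
  have hsplit : ∑ ρ ∈ ZF c (2 * η) X, (mz c ρ : ℂ) * (X : ℂ) ^ (ρ - 1 - t * Complex.I) *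
      wh w (ρ - 1 - t * Complex.I) =
      ∑ ρ ∈ Rz c η X t, (mz c ρ : ℂ) * (X : ℂ) ^ (ρ - 1 - t * Complex.I) *
        wh w (ρ - 1 - t * Complex.I) +
      ∑ ρ ∈ (ZF c (2 * η) X).filter (fun ρ => ¬ |ρ.im - t| ≤ (X : ℝ) ^ (3 * η / 10) + 1),
        (mz c ρ : ℂ) * (X : ℂ) ^ (ρ - 1 - t * Complex.I) * wh w (ρ - 1 - t * Complex.I) := by
    rw [Rz, sum_filter_add_sum_filter_not]
  have hrest : ‖∑ ρ ∈ (ZF c (2 * η) X).filter (fun ρ => ¬ |ρ.im - t| ≤ (X : ℝ) ^ (3 * η / 10) + 1),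
        (mz c ρ : ℂ) * (X : ℂ) ^ (ρ - 1 - t * Complex.I) * wh w (ρ - 1 - t * Complex.I)‖ ≤
      C * (X : ℝ) ^ (-(29 * η / 50)) := by
    have hnum := hN2 X c hXX0 (hc.trans (Real.rpow_le_rpow_of_exponent_le (by linarith) (by linarith)))
    calc _ ≤ ∑ ρ ∈ (ZF c (2 * η) X).filter (fun ρ => ¬ |ρ.im - t| ≤ (X : ℝ) ^ (3 * η / 10) + 1),
          (mz c ρ : ℝ) * (C * (X : ℝ) ^ (-(3 * η / 5))) := by
          refine norm_sum_le_of_le _ (fun ρ hρ => ?_)
          rw [mem_filter, hF.2.1 c (2 * η) X _ (by linarith)] at hρ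
          obtain ⟨⟨hL, hre, him⟩, hfar⟩ := hρ
          have hlt := (hF.2.2 c ρ hL (by linarith)).1
          rw [norm_mul, norm_mul, mul_assoc]
          have n1 : ‖(mz c ρ : ℂ)‖ = (mz c ρ : ℝ) := by simp
          rw [n1]
          refine mul_le_mul_of_nonneg_left ?_ (Nat.cast_nonneg _)
          have n2 : ‖(X : ℂ) ^ (ρ - 1 - t * Complex.I)‖ ≤ 1 := by
            rw [Complex.norm_natCast_cpow_of_pos (by omega)]
            refine Real.rpow_le_one_of_one_le_of_nonpos (by linarith) ?_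
            simp
            linarith
          have n3 : ‖wh w (ρ - 1 - t * Complex.I)‖ ≤ C * (X : ℝ) ^ (-(3 * η / 5)) := by
            have h2 := hC (ρ - 1 - t * Complex.I) (by simp; linarith)
            refine h2.trans ?_
            have h3 : (X : ℝ) ^ (3 * η / 10) ≤ ‖ρ - 1 - t * Complex.I‖ := by
              have h4 : |(ρ - 1 - t * Complex.I).im| ≤ ‖ρ - 1 - t * Complex.I‖ := Complex.abs_im_le_norm _
              have h5 : (ρ - 1 - t * Complex.I).im = ρ.im - t := by simp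
              rw [h5] at h4
              push Not at hfar
              linarith
            have h6 : (X : ℝ) ^ (3 * η / 5) = (X : ℝ) ^ (3 * η / 10) * (X : ℝ) ^ (3 * η / 10) := by
              rw [← Real.rpow_add hXp]; congr 1; ring
            have h7 : 0 < (X : ℝ) ^ (3 * η / 10) := Real.rpow_pos_of_pos hXp _
            rw [Real.rpow_neg hXp.le, h6, ← div_eq_mul_inv]
            have h8 : 0 < (X : ℝ) ^ (3 * η / 10) * (X : ℝ) ^ (3 * η / 10) := by positivity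
            gcongr
            nlinarith
          calc ‖(X : ℂ) ^ (ρ - 1 - t * Complex.I)‖ * ‖wh w (ρ - 1 - t * Complex.I)‖ ≤
                1 * (C * (X : ℝ) ^ (-(3 * η / 5))) := by
                exact mul_le_mul n2 n3 (norm_nonneg _) zero_le_one
            _ = _ := one_mul _
      _ = (∑ ρ ∈ (ZF c (2 * η) X).filter (fun ρ => ¬ |ρ.im - t| ≤ (X : ℝ) ^ (3 * η / 10) + 1),
          (mz c ρ : ℝ)) * (C * (X : ℝ) ^ (-(3 * η / 5))) := by rw [sum_mul]
      _ ≤ (X : ℝ) ^ (η / 50) * (C * (X : ℝ) ^ (-(3 * η / 5))) := by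
          refine mul_le_mul_of_nonneg_right ?_ (by positivity)
          refine (sum_le_sum_of_subset_of_nonneg (filter_subset _ _) (fun _ _ _ => Nat.cast_nonneg _)).trans hnum
      _ = C * (X : ℝ) ^ (-(29 * η / 50)) := by
          have : (X : ℝ) ^ (-(29 * η / 50)) = (X : ℝ) ^ (η / 50) * (X : ℝ) ^ (-(3 * η / 5)) := by
            rw [← Real.rpow_add hXp]; congr 1; ring
          rw [this]; ring
  rw [hsplit, ← add_assoc]
  refine (norm_add_le _ _).trans ((add_le_add h1 hrest).trans (hX2 X hXX2))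

end Pool.Agent.Helper34.MV
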