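import Pool.Agent.Helper23.MV.StP

/-!
# Project MV, module GBF (helper34)
-/

set_option autoImplicit false

namespace Pool.Agent.Helper34.MV

open Finset ArithmeticFunction
open Pool.Agent.Helper2.MR (ch)
open Pool.Agent.Helper15.AB (IsW)
open Pool.Agent.Helper23.GK (GA)
open Pool.Agent.Helper23.MV

/-- `∑ w(log(m/X)) m^{-1-s}` -/
noncomputable def Wsum (w : ℝ → ℝ) (X : ℕ) (s : ℂ) : ℂ :=
  ∑ m ∈ Icc 1 (3 * X), ((w (Real.log (m / X)) : ℝ) : ℂ) * (m : ℂ) ^ (-1 - s)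

theorem ch_cpow (t : ℝ) {m : ℕ} (hm : m ≠ 0) : ch t m = (m : ℂ) ^ (-(t * Complex.I)) := by
  have hm' : (m : ℂ) ≠ 0 := by exact_mod_cast hm
  rw [Complex.cpow_def_of_ne_zero hm', ← Complex.natCast_log, ch]
  congr 1
  push_cast
  ring

theorem cpow_split (t δ : ℝ) {m : ℕ} (hm : m ≠ 0) :
    (m : ℂ) ^ (-1 - ((δ : ℂ) + t * Complex.I)) = (((m : ℝ) ^ (-δ) : ℝ) : ℂ) / m * ch t m := by
  have hm' : (m : ℂ) ≠ 0 := by exact_mod_cast hm
  rw [ch_cpow t hm, Complex.ofReal_cpow (Nat.cast_nonneg m)]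
  have : (-1 - ((δ : ℂ) + t * Complex.I)) = (-1) + ((-δ : ℝ) : ℂ) + (-(t * Complex.I)) := by
    push_cast; ring
  rw [this, Complex.cpow_add _ _ hm', Complex.cpow_add _ _ hm', Complex.cpow_neg_one]
  push_cast
  field_simp

theorem GO_eq (o : Option (PCh × ℝ)) (c : PCh) (w : ℝ → ℝ) (X : ℕ) (t : ℝ) :
    GO o c w X t = GA w c.χ X t -
      ∑ m ∈ Icc 1 (3 * X), ((w (Real.log (m / X)) : ℝ) : ℂ) * ((mwt o c m : ℝ) : ℂ) / m * ch t m := by
  unfold GO GA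
  rw [← sum_sub_distrib]
  refine sum_congr rfl (fun m _ => ?_)
  unfold gm PCh.ev
  push_cast
  ring

theorem sum_one (w : ℝ → ℝ) (X : ℕ) (t : ℝ) :
    ∑ m ∈ Icc 1 (3 * X), ((w (Real.log (m / X)) : ℝ) : ℂ) / m * ch t m = Wsum w X (t * Complex.I) := by
  unfold Wsum
  refine sum_congr rfl (fun m hm => ?_)
  have hm0 : m ≠ 0 := by have := (mem_Icc.mp hm).1; omega
  have := cpow_split t 0 hm0
  simp only [Complex.ofReal_zero, zero_add, neg_zero, Real.rpow_zero, Complex.ofReal_one] at this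
  rw [this]
  ring

theorem sum_del (w : ℝ → ℝ) (X : ℕ) (t δ : ℝ) :
    ∑ m ∈ Icc 1 (3 * X), ((w (Real.log (m / X)) : ℝ) : ℂ) * (((m : ℝ) ^ (-δ) : ℝ) : ℂ) / m * ch t m =
      Wsum w X (δ + t * Complex.I) := by
  unfold Wsum
  refine sum_congr rfl (fun m hm => ?_)
  have hm0 : m ≠ 0 := by have := (mem_Icc.mp hm).1; omega
  rw [cpow_split t δ hm0]
  ring

/-- the term of a zero -/
noncomputable def tm (c : PCh) (w : ℝ → ℝ) (X : ℕ) (t : ℝ) (ρ : ℂ) : ℂ :=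
  (mz c ρ : ℂ) * (X : ℂ) ^ (ρ - 1 - t * Complex.I) * wh w (ρ - 1 - t * Complex.I)

/-- the identity: `o` and `c` arbitrary. -/
theorem main_eq (hF : StFin) (w : ℝ → ℝ) (η : ℝ) (hη : 0 < η) (hη1 : η ≤ 1 / 100)
    (o : Option (PCh × ℝ)) (c : PCh) (X : ℕ) (t : ℝ) (ho : OKb o η) :
    ∃ δ : ℝ, 0 ≤ δ ∧ δ ≤ 1 ∧ ∃ b : ℂ, ‖b‖ ≤ 1 ∧
    GO o c w X t + ∑ ρ ∈ Zex o c (2 * η) X, tm c w X t ρ =
      (GA w c.χ X t - (if c.χ = 1 then (X : ℂ) ^ (-(t * Complex.I)) * wh w (-(t * Complex.I)) else 0) +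
        ∑ ρ ∈ ZF c (2 * η) X, tm c w X t ρ) -
      (if c.χ = 1 then 1 else 0) * (Wsum w X (t * Complex.I) -
        (X : ℂ) ^ (-(t * Complex.I)) * wh w (-(t * Complex.I))) +
      b * (Wsum w X (δ + t * Complex.I) -
        (X : ℂ) ^ (-(δ + t * Complex.I)) * wh w (-(δ + t * Complex.I))) := by
  classical
  have hA : ∀ m : ℕ, ((if c.χ = 1 then 1 else 0 : ℝ) : ℂ) = (if c.χ = 1 then 1 else 0 : ℂ) := by
    intro m; split_ifs <;> simp
  by_cases hx : ∃ δ : ℝ, o = some (c, δ)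
  · obtain ⟨δ, hδ⟩ := hx
    obtain ⟨_, hδ0, hδη, hL, hm⟩ := ho c δ hδ
    refine ⟨δ, hδ0.le, by linarith, 1, by simp, ?_⟩
    have hmem : (1 - (δ : ℂ)) ∈ ZF c (2 * η) X := by
      rw [hF.2.1 c (2 * η) X _ (by linarith)]
      refine ⟨hL, ?_, ?_⟩
      · simp; linarith
      · simp
    have hZ : Zex o c (2 * η) X = (ZF c (2 * η) X).erase (1 - (δ : ℂ)) := by
      ext ρ
      rw [Zex, mem_filter, mem_erase]
      constructor
      · rintro ⟨h1, h2⟩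
        refine ⟨fun h3 => h2 c δ hδ ⟨rfl, h3⟩, h1⟩
      · rintro ⟨h1, h2⟩
        refine ⟨h2, fun e δ' he h3 => ?_⟩
        rw [hδ] at he
        have : δ = δ' := by
          have := Option.some.inj he
          exact (Prod.ext_iff.mp this).2
        rw [← this] at h3
        exact h1 h3.2
    have hsum : ∑ ρ ∈ ZF c (2 * η) X, tm c w X t ρ =
        tm c w X t (1 - (δ : ℂ)) + ∑ ρ ∈ Zex o c (2 * η) X, tm c w X t ρ := by
      rw [hZ, add_sum_erase _ _ hmem]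
    have htm : tm c w X t (1 - (δ : ℂ)) =
        (X : ℂ) ^ (-(δ + t * Complex.I)) * wh w (-(δ + t * Complex.I)) := by
      unfold tm
      rw [hm]
      have : (1 - (δ : ℂ)) - 1 - t * Complex.I = -(δ + t * Complex.I) := by ring
      rw [this]
      simp
    have hmw : ∀ m : ℕ, ((mwt o c m : ℝ) : ℂ) =
        (if c.χ = 1 then 1 else 0 : ℂ) - (((m : ℝ) ^ (-δ) : ℝ) : ℂ) := by
      intro m
      unfold mwt
      rw [hδ]
      rw [Complex.ofReal_sub, hA m]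
      simp
    have hS : ∑ m ∈ Icc 1 (3 * X), ((w (Real.log (m / X)) : ℝ) : ℂ) * ((mwt o c m : ℝ) : ℂ) / m * ch t m =
        (if c.χ = 1 then 1 else 0 : ℂ) * Wsum w X (t * Complex.I) - Wsum w X (δ + t * Complex.I) := by
      rw [← sum_one, ← sum_del, mul_sum, ← sum_sub_distrib]
      refine sum_congr rfl (fun m _ => ?_)
      rw [hmw m]
      ring
    rw [GO_eq, hS, hsum, htm]
    split_ifs <;> ring
  · refine ⟨0, le_rfl, zero_le_one, 0, by simp, ?_⟩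
    have hZ : Zex o c (2 * η) X = ZF c (2 * η) X := by
      rw [Zex, filter_eq_self]
      intro ρ _ e δ' he h3
      exact hx ⟨δ', by rw [he, h3.1]⟩
    have hmw : ∀ m : ℕ, ((mwt o c m : ℝ) : ℂ) = (if c.χ = 1 then 1 else 0 : ℂ) := by
      intro m
      unfold mwt
      rw [Complex.ofReal_sub, hA m]
      rcases o with _ | ⟨e, δ⟩
      · simp
      · have : ¬ c = e := fun h => hx ⟨δ, by rw [h]⟩
        simp [this]
    have hS : ∑ m ∈ Icc 1 (3 * X), ((w (Real.log (m / X)) : ℝ) : ℂ) * ((mwt o c m : ℝ) : ℂ) / m * ch t m =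
        (if c.χ = 1 then 1 else 0 : ℂ) * Wsum w X (t * Complex.I) := by
      rw [← sum_one, mul_sum]
      refine sum_congr rfl (fun m _ => ?_)
      rw [hmw m]
      ring
    rw [GO_eq, hS, hZ]
    split_ifs <;> ring

theorem hGbf (hF : StFin) (hW : StWhb) (hE : StExg) : StGbf := by
  intro w hw
  obtain ⟨C, hC1, -, -, hC⟩ := hW w hw
  obtain ⟨η₁, h0, h1, h2⟩ := hE w hw
  refine ⟨η₁, h0, h1, fun η hη hη1 => ?_⟩
  obtain ⟨X0, hX0, h3⟩ := h2 η hη hη1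
  -- eventually `X^{-η/4} + 8 C X^{-1/4} ≤ X^{-η/5}`
  have hη100 : η ≤ 1 / 100 := hη1.trans h1
  have hev : ∀ᶠ X : ℝ in Filter.atTop, X ^ (-(η / 4)) + 8 * C * X ^ (-(1 / 4 : ℝ)) ≤ X ^ (-(η / 5)) := by
    have ht : Filter.Tendsto (fun X : ℝ => X ^ (-(η / 20)) + 8 * C * X ^ (-(1 / 4 - η / 5))) Filter.atTop
        (nhds (0 + 8 * C * 0)) := by
      refine Filter.Tendsto.add (tendsto_rpow_neg_atTop (by linarith)) ?_
      exact (tendsto_rpow_neg_atTop (by linarith)).const_mul _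
    rw [mul_zero, add_zero] at ht
    have h5 := ht.eventually (gt_mem_nhds (show (0 : ℝ) < 1 by norm_num))
    filter_upwards [h5, Filter.eventually_gt_atTop (0 : ℝ)] with X hX hXp
    have e1 : X ^ (-(η / 4)) = X ^ (-(η / 5)) * X ^ (-(η / 20)) := by
      rw [← Real.rpow_add hXp]; congr 1; ring
    have e2 : X ^ (-(1 / 4 : ℝ)) = X ^ (-(η / 5)) * X ^ (-(1 / 4 - η / 5)) := by
      rw [← Real.rpow_add hXp]; congr 1; ring
    rw [e1, e2]
    have hp : 0 < X ^ (-(η / 5)) := Real.rpow_pos_of_pos hXp _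
    nlinarith
  obtain ⟨X1, hX1⟩ := Filter.eventually_atTop.mp hev
  refine ⟨max X0 (max 16 ⌈X1⌉₊), by omega, ?_⟩
  intro X o c t hX ho hc ht
  have hXX0 : X0 ≤ X := le_trans (le_max_left _ _) hX
  have hX16 : 16 ≤ X := le_trans (le_trans (le_max_left _ _) (le_max_right _ _)) hX
  have hXX1 : X1 ≤ (X : ℝ) := by
    have : ⌈X1⌉₊ ≤ X := le_trans (le_trans (le_max_right _ _) (le_max_right _ _)) hX
    exact (Nat.le_ceil _).trans (by exact_mod_cast this)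
  have hXr : (16 : ℝ) ≤ X := by exact_mod_cast hX16
  have hXp : (0 : ℝ) < X := by linarith
  -- `X^{3/4} ≤ X/2`
  have h14 : (2 : ℝ) ≤ (X : ℝ) ^ (1 / 4 : ℝ) := by
    have : (2 : ℝ) = (16 : ℝ) ^ (1 / 4 : ℝ) := by
      rw [show (16 : ℝ) = 2 ^ (4 : ℝ) by norm_num, ← Real.rpow_mul (by norm_num)]
      norm_num
    rw [this]
    exact Real.rpow_le_rpow (by norm_num) hXr (by norm_num)
  have h34 : (X : ℝ) ^ (3 / 4 : ℝ) * (X : ℝ) ^ (1 / 4 : ℝ) = X := by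
    rw [← Real.rpow_add hXp]; norm_num
  have h34p : 0 < (X : ℝ) ^ (3 / 4 : ℝ) := Real.rpow_pos_of_pos hXp _
  have ht2 : |t| ≤ X / 2 := by
    have : (X : ℝ) ^ (3 / 4 : ℝ) * 2 ≤ X := by
      calc (X : ℝ) ^ (3 / 4 : ℝ) * 2 ≤ (X : ℝ) ^ (3 / 4 : ℝ) * (X : ℝ) ^ (1 / 4 : ℝ) := by gcongr
        _ = X := h34
    linarith
  have hex := h3 X c t hXX0 hc ht2
  obtain ⟨δ, hδ0, hδ1, b, hb, hmain⟩ := main_eq hF w η hη hη100 o c X t ho
  have key : ‖GO o c w X t + ∑ ρ ∈ Zex o c (2 * η) X, tm c w X t ρ‖ ≤ (X : ℝ) ^ (-(η / 5)) := by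
    rw [hmain]
    have b1 : ‖Wsum w X (t * Complex.I) - (X : ℂ) ^ (-(t * Complex.I)) * wh w (-(t * Complex.I))‖ ≤
        4 * C * (X : ℝ) ^ (-(1 / 4 : ℝ)) := by
      have h6 := hC X (t * Complex.I) (by omega) (by simp) (by simp)
      refine h6.trans ?_
      have h7 : ‖(t : ℂ) * Complex.I‖ = |t| := by simp
      rw [h7]
      have h8 : (X : ℝ) ^ (-(1 / 4 : ℝ)) = (X : ℝ) ^ (3 / 4 : ℝ) / X := by
        rw [eq_div_iff hXp.ne', ← Real.rpow_add_one hXp.ne']; norm_num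
      rw [h8]
      have h9 : 1 + |t| ≤ 4 * (X : ℝ) ^ (3 / 4 : ℝ) := by
        have : 1 ≤ (X : ℝ) ^ (3 / 4 : ℝ) := Real.one_le_rpow (by linarith) (by norm_num)
        linarith
      calc C * (1 + |t|) / X ≤ C * (4 * (X : ℝ) ^ (3 / 4 : ℝ)) / X := by gcongr
        _ = _ := by ring
    have b2 : ‖Wsum w X (δ + t * Complex.I) - (X : ℂ) ^ (-(δ + t * Complex.I)) * wh w (-(δ + t * Complex.I))‖ ≤
        4 * C * (X : ℝ) ^ (-(1 / 4 : ℝ)) := by
      have h6 := hC X (δ + t * Complex.I) (by omega) (by simpa using hδ0) (by simpa using hδ1)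
      refine h6.trans ?_
      have h7 : ‖(δ : ℂ) + t * Complex.I‖ ≤ 1 + |t| := by
        refine (norm_add_le _ _).trans ?_
        simp only [Complex.norm_real, Complex.norm_mul, Complex.norm_I, mul_one, Real.norm_eq_abs]
        rw [abs_of_nonneg hδ0]
        linarith
      have h8 : (X : ℝ) ^ (-(1 / 4 : ℝ)) = (X : ℝ) ^ (3 / 4 : ℝ) / X := by
        rw [eq_div_iff hXp.ne', ← Real.rpow_add_one hXp.ne']; norm_num
      rw [h8]
      have h9 : 1 + ‖(δ : ℂ) + t * Complex.I‖ ≤ 4 * (X : ℝ) ^ (3 / 4 : ℝ) := by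
        have : 1 ≤ (X : ℝ) ^ (3 / 4 : ℝ) := Real.one_le_rpow (by linarith) (by norm_num)
        linarith
      calc C * (1 + ‖(δ : ℂ) + t * Complex.I‖) / X ≤ C * (4 * (X : ℝ) ^ (3 / 4 : ℝ)) / X := by gcongr
        _ = _ := by ring
    have b3 : ‖(if c.χ = 1 then 1 else 0 : ℂ)‖ ≤ 1 := by split_ifs <;> simp
    have hP : 0 ≤ 4 * C * (X : ℝ) ^ (-(1 / 4 : ℝ)) := by positivity
    calc _ ≤ (X : ℝ) ^ (-(η / 4)) + 1 * (4 * C * (X : ℝ) ^ (-(1 / 4 : ℝ))) +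
          1 * (4 * C * (X : ℝ) ^ (-(1 / 4 : ℝ))) := by
          refine (norm_add_le _ _).trans (add_le_add ((norm_sub_le _ _).trans (add_le_add hex ?_)) ?_)
          · rw [norm_mul]; exact mul_le_mul b3 b1 (norm_nonneg _) zero_le_one
          · rw [norm_mul]; exact mul_le_mul hb b2 (norm_nonneg _) zero_le_one
      _ ≤ (X : ℝ) ^ (-(η / 5)) := by
          have := hX1 X hXX1
          linarith
  exact key

end Pool.Agent.Helper34.MV
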